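import Pool.Agent.W236.SC.QDefs

set_option autoImplicit false

namespace Pool.Agent.W509.SC

open Polynomial Pool.Agent.W236.Qv

/-- polynomial functions of one rational variable -/
def IsPoly (φ : ℚ → ℚ) : Prop := ∃ P : ℚ[X], ∀ t, φ t = P.eval t

theorem isPoly_const (c : ℚ) : IsPoly (fun _ => c) := ⟨C c, by simp⟩

theorem isPoly_id : IsPoly (fun t => t) := ⟨X, by simp⟩

theorem IsPoly.add {φ ψ : ℚ → ℚ} (h1 : IsPoly φ) (h2 : IsPoly ψ) : IsPoly (fun t => φ t + ψ t) := by
  obtain ⟨P, hP⟩ := h1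
  obtain ⟨Q, hQ⟩ := h2
  exact ⟨P + Q, by simp [hP, hQ]⟩

theorem IsPoly.mul {φ ψ : ℚ → ℚ} (h1 : IsPoly φ) (h2 : IsPoly ψ) : IsPoly (fun t => φ t * ψ t) := by
  obtain ⟨P, hP⟩ := h1
  obtain ⟨Q, hQ⟩ := h2
  exact ⟨P * Q, by simp [hP, hQ]⟩

theorem isPoly_sum {ι : Type*} (s : Finset ι) (φ : ι → ℚ → ℚ) (h : ∀ i ∈ s, IsPoly (φ i)) :
    IsPoly (fun t => ∑ i ∈ s, φ i t) := by
  choose! P hP using h
  exact ⟨∑ i ∈ s, P i, fun t => by
    rw [eval_finsetSum]; exact Finset.sum_congr rfl (fun i hi => hP i hi t)⟩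

theorem isPoly_prod {ι : Type*} (s : Finset ι) (φ : ι → ℚ → ℚ) (h : ∀ i ∈ s, IsPoly (φ i)) :
    IsPoly (fun t => ∏ i ∈ s, φ i t) := by
  choose! P hP using h
  exact ⟨∏ i ∈ s, P i, fun t => by
    rw [eval_prod]; exact Finset.prod_congr rfl (fun i hi => hP i hi t)⟩

theorem isPoly_det {n : Type*} [Fintype n] [DecidableEq n] (M : ℚ → Matrix n n ℚ)
    (h : ∀ i j, IsPoly (fun t => M t i j)) : IsPoly (fun t => (M t).det) := by
  simp_rw [Matrix.det_apply']
  exact isPoly_sum _ _ (fun σ _ => (isPoly_const _).mul (isPoly_prod _ _ (fun i _ => h _ _)))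

theorem isPoly_adjugate {n : Type*} [Fintype n] [DecidableEq n] (M : ℚ → Matrix n n ℚ)
    (h : ∀ i j, IsPoly (fun t => M t i j)) (i j : n) : IsPoly (fun t => (M t).adjugate i j) := by
  simp_rw [Matrix.adjugate_apply]
  apply isPoly_det
  intro a b
  by_cases hab : a = j
  · subst hab
    simp only [Matrix.updateRow_self]
    exact isPoly_const _
  · simp only [Matrix.updateRow_ne hab]
    exact h a b

variable {S : Type*} [Fintype S] [DecidableEq S]

abbrev VV (d : S → ℕ) := ∀ i, (Fin (d i) → ℚ) →ₗ[ℚ] (Fin (d i) → ℚ)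

abbrev ZZ (d : S → ℕ) := ∀ i j : S, (Fin (d i) → ℚ) →ₗ[ℚ] (Fin (d j) → ℚ)

/-- commutator map -/
def AA (d : S → ℕ) (f : ZZ d) : VV d →ₗ[ℚ] ZZ d where
  toFun := fun h i j => (h j) ∘ₗ (f i j) - (f i j) ∘ₗ (h i)
  map_add' := fun x y => by
    funext i j
    simp only [Pi.add_apply, LinearMap.add_comp, LinearMap.comp_add]
    abel
  map_smul' := fun c x => by
    funext i j
    simp only [Pi.smul_apply, LinearMap.smul_comp, LinearMap.comp_smul, RingHom.id_apply,
      smul_sub]

/-- right multiplication -/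
def BB (d : S → ℕ) (k : ZZ d) : VV d →ₗ[ℚ] ZZ d where
  toFun := fun h i j => - ((k i j) ∘ₗ (h i))
  map_add' := fun x y => by
    funext i j
    simp only [Pi.add_apply, LinearMap.comp_add]
    abel
  map_smul' := fun c x => by
    funext i j
    simp only [Pi.smul_apply, LinearMap.comp_smul, RingHom.id_apply, smul_neg]

theorem claim (ar : S → S → Prop) (d : S → ℕ)
    (f k : ∀ i j : S, (Fin (d i) → ℚ) →ₗ[ℚ] (Fin (d j) → ℚ)) (hR : Rigid ar d f) :
    {t : ℚ | ¬ ∃ h : ∀ i, (Fin (d i) → ℚ) →ₗ[ℚ] (Fin (d i) → ℚ),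
      (∀ i, Function.Bijective (h i)) ∧
      ∀ i j, ar i j → (f i j + t • k i j) ∘ₗ (h i) = (h j) ∘ₗ (f i j)}.Finite := by
  classical
  let f' : ZZ d := fun i j => if ar i j then f i j else 0
  let k' : ZZ d := fun i j => if ar i j then k i j else 0
  let A := AA d f'
  let B := BB d k'
  have hBA : ∀ h : VV d, B h ∈ LinearMap.range A := by
    intro h
    obtain ⟨x, hx⟩ := hR (B h)
    refine ⟨x, ?_⟩
    funext i j
    by_cases hij : ar i j
    · rw [hx i j hij]
      simp only [A, AA, f', LinearMap.coe_mk, AddHom.coe_mk, hij, if_true]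
    · simp only [A, B, AA, BB, f', k', LinearMap.coe_mk, AddHom.coe_mk, hij, if_false,
        LinearMap.comp_zero, LinearMap.zero_comp, sub_zero, neg_zero]
  obtain ⟨R, hRR⟩ := Module.projective_lifting_property A.rangeRestrict
    (B.codRestrict (LinearMap.range A) hBA) A.surjective_rangeRestrict
  have hRB : ∀ h : VV d, A (R h) = B h := by
    intro h
    have := congrArg Subtype.val (LinearMap.congr_fun hRR h)
    simpa using this
  let b := Module.finBasis ℚ (VV d)
  let M := LinearMap.toMatrix b b R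
  let N : ℚ → Matrix (Fin (Module.finrank ℚ (VV d))) (Fin (Module.finrank ℚ (VV d))) ℚ :=
    fun t => 1 + t • M
  let one : VV d := fun i => LinearMap.id
  let c : ℚ → Fin (Module.finrank ℚ (VV d)) → ℚ := fun t => (N t).adjugate.mulVec (b.equivFun one)
  let H : ℚ → VV d := fun t => b.equivFun.symm (c t)
  have hAone : A one = 0 := by
    funext i j
    simp [A, AA, one]
  -- the relation
  have hrel : ∀ t, A (H t) + t • B (H t) = 0 := by
    intro t
    have h1 : A (H t) + t • B (H t) = A (H t + t • R (H t)) := by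
      rw [map_add, map_smul, hRB]
    have h2 : H t + t • R (H t) = (N t).det • one := by
      apply b.equivFun.injective
      have h3 : b.equivFun (R (H t)) = M.mulVec (b.equivFun (H t)) := by
        have := LinearMap.toMatrix_mulVec_repr b b R (H t)
        rw [Module.Basis.equivFun_apply, Module.Basis.equivFun_apply]
        exact this.symm
      have h4 : b.equivFun (H t) = c t := b.equivFun.apply_symm_apply (c t)
      rw [map_add, map_smul, map_smul, h3, h4]
      have h5 : c t + t • M.mulVec (c t) = (N t).mulVec (c t) := by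
        simp only [N, Matrix.add_mulVec, Matrix.one_mulVec, Matrix.smul_mulVec]
      rw [h5]
      simp only [c]
      rw [Matrix.mulVec_mulVec, Matrix.mul_adjugate, Matrix.smul_mulVec, Matrix.one_mulVec]
    rw [h1, h2, map_smul, hAone, smul_zero]
  have hH0 : H 0 = one := by
    simp only [H, c, N, zero_smul, add_zero, Matrix.adjugate_one, Matrix.one_mulVec]
    exact b.equivFun.symm_apply_apply one
  -- polynomiality
  have hN : ∀ i j, IsPoly (fun t => N t i j) := by
    intro i j
    simp only [N, Matrix.add_apply, Matrix.smul_apply, smul_eq_mul]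
    exact (isPoly_const _).add (isPoly_id.mul (isPoly_const _))
  have hc : ∀ i, IsPoly (fun t => c t i) := by
    intro i
    simp only [c, Matrix.mulVec, dotProduct]
    exact isPoly_sum _ _ (fun j _ => (isPoly_adjugate N hN i j).mul (isPoly_const _))
  have hdet : ∀ i, IsPoly (fun t => (LinearMap.toMatrix' (H t i)).det) := by
    intro i
    apply isPoly_det
    intro x y
    have : ∀ t, LinearMap.toMatrix' (H t i) x y =
        ∑ κ, c t κ * LinearMap.toMatrix' (b κ i) x y := by
      intro t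
      simp only [H, Module.Basis.equivFun_symm_apply, Finset.sum_apply, Pi.smul_apply, map_sum,
        map_smul, Matrix.sum_apply, Matrix.smul_apply, smul_eq_mul]
    simp_rw [this]
    exact isPoly_sum _ _ (fun κ _ => (hc κ).mul (isPoly_const _))
  obtain ⟨P, hP⟩ := isPoly_prod Finset.univ (fun i t => (LinearMap.toMatrix' (H t i)).det)
    (fun i _ => hdet i)
  have hP0 : P ≠ 0 := by
    intro h
    have := hP 0
    simp only [h, hH0] at this
    simp [one] at this
  refine (P.roots.toFinset.finite_toSet).subset ?_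
  intro t ht
  simp only [Finset.mem_coe, Multiset.mem_toFinset, mem_roots hP0, IsRoot.def]
  by_contra hne
  apply ht
  refine ⟨H t, ?_, ?_⟩
  · intro i
    rw [← hP t] at hne
    have hi := Finset.prod_ne_zero_iff.1 hne i (Finset.mem_univ i)
    rw [LinearMap.det_toMatrix'] at hi
    exact (LinearEquiv.ofIsUnitDet (f := H t i) (v := Pi.basisFun ℚ _) (v' := Pi.basisFun ℚ _)
      (by
        rw [LinearMap.det_toMatrix]
        exact isUnit_iff_ne_zero.2 hi)).bijective
  · intro i j hij
    have := congrFun (congrFun (hrel t) i) j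
    simp only [A, B, AA, BB, f', k', LinearMap.coe_mk, AddHom.coe_mk, Pi.add_apply, Pi.smul_apply, hij,
      if_true, Pi.zero_apply] at this
    rw [LinearMap.add_comp, LinearMap.smul_comp]
    rw [smul_neg] at this
    have h2 := sub_eq_zero.1 (show (H t j) ∘ₗ (f i j) - ((f i j) ∘ₗ (H t i) + t • (k i j) ∘ₗ (H t i))
      = 0 by rw [← this]; abel)
    exact h2.symm

theorem unique : S_Unique S := by
  intro ar d f g hf hg
  have h1 := claim ar d f (fun i j => g i j - f i j) hf
  have h2 := claim ar d g (fun i j => f i j - g i j) hg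
  have h3 : ((fun s : ℚ => 1 - s) '' _).Finite := h2.image (fun s : ℚ => 1 - s)
  obtain ⟨t, ht⟩ := (h1.union h3).infinite_compl.nonempty
  rw [Set.mem_compl_iff, Set.mem_union, not_or] at ht
  obtain ⟨ht1, ht2⟩ := ht
  rw [Set.mem_ofPred_eq, not_not] at ht1
  have ht2' : ∃ h : ∀ i, (Fin (d i) → ℚ) →ₗ[ℚ] (Fin (d i) → ℚ),
      (∀ i, Function.Bijective (h i)) ∧
      ∀ i j, ar i j → (g i j + (1 - t) • (f i j - g i j)) ∘ₗ (h i) = (h j) ∘ₗ (g i j) := by
    by_contra hcon
    apply ht2
    exact ⟨1 - t, hcon, by simp⟩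
  obtain ⟨h, hb, hh⟩ := ht1
  obtain ⟨h', hb', hh'⟩ := ht2'
  let E : ∀ i, (Fin (d i) → ℚ) ≃ₗ[ℚ] (Fin (d i) → ℚ) := fun i => LinearEquiv.ofBijective (h' i) (hb' i)
  refine ⟨fun i => ((E i).symm : (Fin (d i) → ℚ) →ₗ[ℚ] (Fin (d i) → ℚ)) ∘ₗ h i, ?_, ?_⟩
  · intro i
    exact (E i).symm.bijective.comp (hb i)
  · intro i j hij
    apply LinearMap.ext
    intro x
    simp only [LinearMap.comp_apply, LinearEquiv.coe_coe]
    apply (E j).injective
    rw [LinearEquiv.apply_symm_apply]
    have e1 := LinearMap.congr_fun (hh i j hij) x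
    have e2 := LinearMap.congr_fun (hh' i j hij) ((E i).symm (h i x))
    have e3 : h' i ((E i).symm (h i x)) = h i x := (E i).apply_symm_apply (h i x)
    simp only [LinearMap.comp_apply, LinearMap.add_apply, LinearMap.smul_apply,
      LinearMap.sub_apply] at e1 e2
    rw [e3] at e2
    change h' j (g i j ((E i).symm (h i x))) = _
    rw [← e2, ← e1]
    module

end Pool.Agent.W509.SC
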