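import Pool.Agent.W236.SC.Defs2

set_option autoImplicit false

namespace Pool.Agent.W509.SC.Common

open Pool.Agent.Helper741 Pool.Agent.W236.SC

variable {B : Type*} [Fintype B] [DecidableEq B] {M : CoxeterMatrix B}
variable {W : Type*} [Group W] (cs : CoxeterSystem M W)

theorem same_trans {n : ℕ} {b : W} {s t : B} {q : ℕ → B} {U V U' : Finset ℕ}
    (h1 : Same cs n b s t q U V) (h2 : Same cs n b s t q V U') : Same cs n b s t q U U' := by
  intro k hk
  obtain ⟨a1, a2⟩ := h1 k hk
  obtain ⟨b1, b2⟩ := h2 k hk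
  refine ⟨a1.trans b1, fun hp => (a2 hp).trans (b2 ?_)⟩
  rwa [← a1]

theorem same_refl (n : ℕ) (b : W) (s t : B) (q : ℕ → B) (U : Finset ℕ) :
    Same cs n b s t q U U := fun _ _ => ⟨Iff.rfl, fun _ => Iff.rfl⟩

/-- the next facet along an edge: either it is the same or it is a flip at the first skipped
position with the root of the edge -/
theorem next (hF : S_FLIP cs) (hC : S_CROSS cs) (hKUN : S_KUN cs) (hW : S_WEAK cs)
    (n : ℕ) (q : ℕ → B) (ω v : W) (z : B) (V U' : Finset ℕ)
    (hlen : cs.length v < cs.length (v * cs.simple z)) (hv : WLe cs v ω)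
    (hvz : WLe cs (v * cs.simple z) ω) (hV : IsK cs n q ω v V)
    (hU' : IsK cs n q ω (v * cs.simple z) U') :
    (U' = V ∧ ∀ k, k < n → k ∉ V → rt cs q V k ≠ geo cs v (ee z)) ∨
    ∃ g g', g < g' ∧ g' < n ∧ g ∉ V ∧ g' ∈ V ∧ rt cs q V g = geo cs v (ee z) ∧
      rt cs q V g' = geo cs v (ee z) ∧ U' = insert g (V.erase g') ∧
      ∀ k, k < g → k ∉ V → rt cs q V k ≠ geo cs v (ee z) := by
  classical
  obtain ⟨c1, c2, _, _⟩ := hC n q ω v z V hlen
  by_cases hex : ∃ g, g < n ∧ g ∉ V ∧ rt cs q V g = geo cs v (ee z)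
  · right
    obtain ⟨hg1, hg2, hg3⟩ := Nat.find_spec hex
    have hmin : ∀ k, k < Nat.find hex → k ∉ V → rt cs q V k ≠ geo cs v (ee z) :=
      fun k hk hkV heq => Nat.find_min hex hk ⟨hk.trans hg1, hkV, heq⟩
    have hω : geo cs ω⁻¹ (geo cs v (ee z)) ≤ 0 := (hW.2.2.2.2.2.2 v ω z hlen hv).1 hvz
    obtain ⟨g', a1, a2, a3, a4, a5⟩ := c2 hV (Nat.find hex) hg1 hg2 hg3 hmin hω
    exact ⟨Nat.find hex, g', a1, a2, hg2, a3, hg3, a4, hKUN n q ω _ _ _ hU' a5, hmin⟩
  · left
    push Not at hex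
    exact ⟨hKUN n q ω _ _ _ hU' (c1 hV hex), hex⟩

theorem same_flip (hF : S_FLIP cs) (n : ℕ) (q : ℕ → B) (ω b : W) (s t : B) (V : Finset ℕ)
    (g g' : ℕ) (hV : IsFac cs n q ω V) (hgg : g < g') (hg : g ∉ V) (hg' : g' ∈ V)
    (hr : rt cs q V g = rt cs q V g') (hp : PsiAt cs b s t q V g) :
    Same cs n b s t q V (insert g (V.erase g')) := by
  obtain ⟨_, f1, f2, f3, _⟩ := hF n q ω V g g' hV hgg hg hg' hr
  have hp' : PsiAt cs b s t q V g' := by
    intro i h1 h2
    rw [← hr]
    exact hp i h1 h2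
  intro k _
  constructor
  · rcases le_or_gt k g with h | h
    · simp only [PsiAt, f1 k h]
    · rcases le_or_gt k g' with h' | h'
      · simp only [PsiAt, f3 k h h']
        constructor
        · intro h4 i h1 h2
          rw [map_sub, map_smul, Pi.sub_apply, Pi.smul_apply, h4 i h1 h2, hp i h1 h2]
          simp
        · intro h4 i h1 h2
          have := h4 i h1 h2
          rw [map_sub, map_smul, Pi.sub_apply, Pi.smul_apply, hp i h1 h2] at this
          simpa using this
      · simp only [PsiAt, f2 k h']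
  · intro hk
    have h1 : k ≠ g := by rintro rfl; exact hk hp
    have h2 : k ≠ g' := by rintro rfl; exact hk hp'
    simp only [Finset.mem_insert, Finset.mem_erase]
    tauto

theorem common (hF : S_FLIP cs) (hC : S_CROSS cs) (hKEX : S_KEX cs)
    (hKUN : S_KUN cs) (hW : S_WEAK cs) (hP : S_POLY cs) (hPl : S_PLANE cs) (hA : S_ALTF cs) :
    S_COMMON cs := by
  intro n q ω b s t hst hm hbs hbt htop k
  obtain ⟨p1, p2, _, _⟩ := hP.1 b s t hst hm hbs hbt
  induction k with
  | zero =>
    intro _ U U' hU hU'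
    rw [W236.SC.alt, mul_one] at hU'
    rw [hKUN n q ω b U U' hU hU']
    exact same_refl cs n b s t q U'
  | succ k ih =>
    intro hk U U' hU hU'
    set z := if Even k then s else t with hz
    have hv : WLe cs (b * alt cs s t k) ω := hW.2.2.1 _ _ _ (p2 k (M s t) (by omega) le_rfl) htop
    have hvz : WLe cs (b * alt cs s t (k + 1)) ω := hW.2.2.1 _ _ _ (p2 (k + 1) (M s t) hk le_rfl) htop
    have halt : b * alt cs s t (k + 1) = b * alt cs s t k * cs.simple z := by
      rw [W236.SC.alt, mul_assoc]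
    have hlen : cs.length (b * alt cs s t k) < cs.length (b * alt cs s t k * cs.simple z) := by
      rw [← halt, p1 k (by omega), p1 (k + 1) hk]
      omega
    rw [halt] at hU' hvz
    obtain ⟨V, hV⟩ := hKEX n q ω (b * alt cs s t k) ⟨U, hU.fac⟩ hv
    have h1 := ih (by omega) U V hU hV
    refine same_trans cs h1 ?_
    rcases next cs hF hC hKUN hW n q ω _ z V U' hlen hv hvz hV hU' with h2 | h2
    · rw [h2.1]
      exact same_refl cs n b s t q V
    · obtain ⟨g, g', a1, a2, a3, a4, a5, a6, rfl, _⟩ := h2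
      refine same_flip cs hF n q ω b s t V g g' hV.fac a1 a3 a4 (a5.trans a6.symm) ?_
      intro i hi1 hi2
      rw [a5, map_mul, Module.End.mul_apply, geo_inv_apply,
        (hPl s t hst _ ((hA s t hst hm).1 k)).1 _ i hi1 hi2]
      have : i ≠ z := by
        rw [hz]; split_ifs
        · exact hi1
        · exact hi2
      simp [ee, this]

end Pool.Agent.W509.SC.Common
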