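import Pool.Agent.W236.SC.Defs2

set_option autoImplicit false

namespace Pool.Agent.W509.SC

open Pool.Agent.Helper741 Pool.Agent.W236.SC

variable {B : Type*} [Fintype B] [DecidableEq B] {M : CoxeterMatrix B}
variable {W : Type*} [Group W] (cs : CoxeterSystem M W)

theorem pf_congr (q : ℕ → B) (U U' : Finset ℕ) (k : ℕ) (h : ∀ j, j < k → (j ∈ U' ↔ j ∈ U)) :
    pf cs q U' k = pf cs q U k := by
  induction k with
  | zero => rfl
  | succ k ih =>
    rw [pf, pf, ih (fun j hj => h j (by omega))]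
    simp only [h k (Nat.lt_succ_self _)]

/-- transport of a relation `pf U' = t * pf U` -/
theorem pf_mul (q : ℕ → B) (U U' : Finset ℕ) (t : W) (a b : ℕ) (hab : a ≤ b)
    (h : ∀ j, a ≤ j → j < b → (j ∈ U' ↔ j ∈ U)) (ha : pf cs q U' a = t * pf cs q U a) :
    pf cs q U' b = t * pf cs q U b := by
  induction b, hab using Nat.le_induction with
  | base => exact ha
  | succ k hk ih =>
    rw [pf, pf, ih (fun j h1 h2 => h j h1 (by omega))]
    simp only [h k hk (Nat.lt_succ_self _)]
    split_ifs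
    · rw [mul_assoc]
    · rfl

theorem refl_sq (w : W) (i : B) : (w * cs.simple i * w⁻¹)⁻¹ = w * cs.simple i * w⁻¹ := by
  rw [mul_inv_rev, mul_inv_rev, inv_inv, cs.inv_simple, mul_assoc]

theorem flip (hB : BaseF cs) : S_FLIP cs := by
  intro n q ω U g g' hU hgg hg hg' hr
  set U' := insert g (U.erase g') with hU'
  have hmem : ∀ j, j ≠ g → j ≠ g' → (j ∈ U' ↔ j ∈ U) := by
    intro j h1 h2
    simp only [hU', Finset.mem_insert, Finset.mem_erase]
    tauto
  have hgU' : g ∈ U' := by simp [hU']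
  have hg'U' : g' ∉ U' := by
    simp only [hU', Finset.mem_insert, Finset.mem_erase]
    omega
  have hg'n : g' < n := hU.sub g' hg'
  set t := pf cs q U g * cs.simple (q g) * (pf cs q U g)⁻¹ with ht
  have p1 : ∀ k, k ≤ g → pf cs q U' k = pf cs q U k := fun k hk =>
    pf_congr cs q U U' k (fun j hj => hmem j (by omega) (by omega))
  have p2 : ∀ k, g < k → k ≤ g' → pf cs q U' k = t * pf cs q U k := by
    intro k h1 h2
    refine pf_mul cs q U U' t (g + 1) k h1 (fun j h3 h4 => hmem j (by omega) (by omega)) ?_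
    rw [pf, pf, if_pos hgU', if_neg hg, p1 g le_rfl, ht, inv_mul_cancel_right]
  have ht' : t = pf cs q U g' * cs.simple (q g') * (pf cs q U g')⁻¹ :=
    (hB.refl_inj _ _ _ _).2 (Or.inl hr)
  have p3 : ∀ k, g' < k → pf cs q U' k = pf cs q U k := by
    intro k h1
    have := pf_mul cs q U U' 1 (g' + 1) k h1 (fun j h3 h4 => hmem j (by omega) (by omega)) (by
      rw [pf, pf, if_neg hg'U', if_pos hg', p2 g' hgg le_rfl, ht', inv_mul_cancel_right, one_mul])
    rwa [one_mul] at this
  have hrefl : ∀ x, geo cs t x = x - frm M (rt cs q U g) x • rt cs q U g := fun x =>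
    hB.refl _ _ x
  refine ⟨⟨?_, ?_, ?_⟩, ?_, ?_, ?_, p1, p3, ?_⟩
  · intro k hk
    by_cases h1 : k = g
    · omega
    · by_cases h2 : k = g'
      · omega
      · exact hU.sub k ((hmem k h1 h2).1 hk)
  · rw [p3 n hg'n, hU.prod]
  · rw [hU', Finset.card_insert_of_notMem, Finset.card_erase_of_mem hg', ← hU.card]
    · have := Finset.card_pos.2 ⟨g', hg'⟩
      omega
    · simp [hg]
  · intro k hk
    rw [rt, rt, p1 k hk]
  · intro k hk
    rw [rt, rt, p3 k hk]
  · intro k h1 h2
    rw [rt, p2 k h1 h2, map_mul, Module.End.mul_apply, hrefl]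
    rfl
  · intro k h1 h2 x
    rw [p2 k h1 h2, mul_inv_rev, map_mul, Module.End.mul_apply, ht, refl_sq, ← ht, hrefl]

theorem flipr (hB : BaseF cs) : S_FLIPR cs := by
  intro n q ω U g g' hU hgg hg'n hg hg' hr
  set U' := insert g' (U.erase g) with hU'
  have hmem : ∀ j, j ≠ g → j ≠ g' → (j ∈ U' ↔ j ∈ U) := by
    intro j h1 h2
    simp only [hU', Finset.mem_insert, Finset.mem_erase]
    tauto
  have hg'U' : g' ∈ U' := by simp [hU']
  have hgU' : g ∉ U' := by
    simp only [hU', Finset.mem_insert, Finset.mem_erase]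
    omega
  set t := pf cs q U g * cs.simple (q g) * (pf cs q U g)⁻¹ with ht
  have p1 : ∀ k, k ≤ g → pf cs q U' k = pf cs q U k := fun k hk =>
    pf_congr cs q U U' k (fun j hj => hmem j (by omega) (by omega))
  have p2 : ∀ k, g < k → k ≤ g' → pf cs q U' k = t * pf cs q U k := by
    intro k h1 h2
    refine pf_mul cs q U U' t (g + 1) k h1 (fun j h3 h4 => hmem j (by omega) (by omega)) ?_
    rw [pf, pf, if_neg hgU', if_pos hg, p1 g le_rfl, ht, ← mul_assoc, inv_mul_cancel_right,
      mul_assoc, cs.simple_mul_simple_self, mul_one]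
  have ht' : t = pf cs q U g' * cs.simple (q g') * (pf cs q U g')⁻¹ := by
    refine (hB.refl_inj _ _ _ _).2 (Or.inr ?_)
    change rt cs q U g = - rt cs q U g'
    rw [hr, neg_neg]
  have p3 : ∀ k, g' < k → pf cs q U' k = pf cs q U k := by
    intro k h1
    have := pf_mul cs q U U' 1 (g' + 1) k h1 (fun j h3 h4 => hmem j (by omega) (by omega)) (by
      rw [pf, pf, if_pos hg'U', if_neg hg', p2 g' hgg le_rfl, ht', inv_mul_cancel_right,
        mul_assoc, cs.simple_mul_simple_self, mul_one, one_mul])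
    rwa [one_mul] at this
  have hrefl : ∀ x, geo cs t x = x - frm M (rt cs q U g) x • rt cs q U g := fun x =>
    hB.refl _ _ x
  refine ⟨⟨?_, ?_, ?_⟩, ?_, ?_, ?_⟩
  · intro k hk
    by_cases h1 : k = g
    · omega
    · by_cases h2 : k = g'
      · omega
      · exact hU.sub k ((hmem k h1 h2).1 hk)
  · rw [p3 n hg'n, hU.prod]
  · rw [hU', Finset.card_insert_of_notMem, Finset.card_erase_of_mem hg, ← hU.card]
    · have := Finset.card_pos.2 ⟨g, hg⟩
      omega
    · simp [hg']
  · intro k hk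
    rw [rt, rt, p1 k hk]
  · intro k hk
    rw [rt, rt, p3 k hk]
  · intro k h1 h2
    rw [rt, p2 k h1 h2, map_mul, Module.End.mul_apply, hrefl]
    rfl

theorem flipc (hB : BaseF cs) (hR : S_ROOTS cs) : S_FLIPC cs := by
  intro n q ω U g g' hU hUU hgg hg hg'
  set U' := insert g (U.erase g') with hU'
  have hmem : ∀ j, j ≠ g → j ≠ g' → (j ∈ U' ↔ j ∈ U) := by
    intro j h1 h2
    simp only [hU', Finset.mem_insert, Finset.mem_erase]
    tauto
  have hgU' : g ∈ U' := by simp [hU']
  have hg'U' : g' ∉ U' := by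
    simp only [hU', Finset.mem_insert, Finset.mem_erase]
    omega
  have hg'n : g' < n := hU.sub g' hg'
  set t := pf cs q U g * cs.simple (q g) * (pf cs q U g)⁻¹ with ht
  set t' := pf cs q U g' * cs.simple (q g') * (pf cs q U g')⁻¹ with ht'
  have p1 : ∀ k, k ≤ g → pf cs q U' k = pf cs q U k := fun k hk =>
    pf_congr cs q U U' k (fun j hj => hmem j (by omega) (by omega))
  have p2 : ∀ k, g < k → k ≤ g' → pf cs q U' k = t * pf cs q U k := by
    intro k h1 h2
    refine pf_mul cs q U U' t (g + 1) k h1 (fun j h3 h4 => hmem j (by omega) (by omega)) ?_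
    rw [pf, pf, if_pos hgU', if_neg hg, p1 g le_rfl, ht, inv_mul_cancel_right]
  have p3 : pf cs q U' n = (t * t'⁻¹) * pf cs q U n := by
    refine pf_mul cs q U U' (t * t'⁻¹) (g' + 1) n hg'n
      (fun j h3 h4 => hmem j (by omega) (by omega)) ?_
    have h5 : t'⁻¹ * (pf cs q U g' * cs.simple (q g')) = pf cs q U g' := by
      rw [ht', refl_sq, mul_assoc, inv_mul_cancel_left, mul_assoc, cs.simple_mul_simple_self,
        mul_one]
    rw [pf, pf, if_neg hg'U', if_pos hg', p2 g' hgg le_rfl, mul_assoc t, h5]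
  rw [hUU.prod, hU.prod] at p3
  have p4 : t = t' := by
    apply mul_inv_eq_one.1
    apply mul_right_cancel (b := ω)
    rw [one_mul]
    exact p3.symm
  have h6 : rt cs q U g = rt cs q U g' ∨ rt cs q U g = - rt cs q U g' :=
    (hB.refl_inj _ _ _ _).1 p4
  rcases h6 with h6 | h6
  · exact h6
  · exfalso
    obtain ⟨r1, _, r3, _, r5, _⟩ := hR n q ω U hU
    have h7 : rt cs q U g ≤ 0 := by
      rw [h6]
      exact neg_nonpos.2 (r1 g' hg').1
    obtain ⟨j, hj, hjg, hjr⟩ := r5 g (by omega) hg h7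
    rw [h6, neg_neg] at hjr
    have := r3 j hj g' hg' hjr
    omega

end Pool.Agent.W509.SC
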