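import Pool.Agent.W236.SC.Defs2

set_option autoImplicit false

namespace Pool.Agent.W509.SC

open Pool.Agent.Helper741 Pool.Agent.W236.SC

variable {B : Type*} [Fintype B] [DecidableEq B] {M : CoxeterMatrix B}
variable {W : Type*} [Group W] (cs : CoxeterSystem M W)

theorem isRt_rt (q : ℕ → B) (U : Finset ℕ) (k : ℕ) : IsRt cs (rt cs q U k) := ⟨_, _, rfl⟩

theorem filter_succ (U : Finset ℕ) (k : ℕ) :
    (U.filter (· < k + 1)).card = (U.filter (· < k)).card + (if k ∈ U then 1 else 0) := by
  by_cases h : k ∈ U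
  · have : U.filter (· < k + 1) = insert k (U.filter (· < k)) := by
      ext x
      simp only [Finset.mem_filter, Finset.mem_insert]
      constructor
      · rintro ⟨h1, h2⟩
        rcases Nat.lt_succ_iff_lt_or_eq.1 h2 with h3 | h3
        · exact Or.inr ⟨h1, h3⟩
        · exact Or.inl h3
      · rintro (rfl | ⟨h1, h2⟩)
        · exact ⟨h, Nat.lt_succ_self _⟩
        · exact ⟨h1, by omega⟩
    rw [this, Finset.card_insert_of_notMem (by simp), if_pos h]
  · have : U.filter (· < k + 1) = U.filter (· < k) := by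
      ext x
      simp only [Finset.mem_filter]
      constructor
      · rintro ⟨h1, h2⟩
        refine ⟨h1, ?_⟩
        rcases Nat.lt_succ_iff_lt_or_eq.1 h2 with h3 | h3
        · exact h3
        · exact absurd (h3 ▸ h1) h
      · rintro ⟨h1, h2⟩
        exact ⟨h1, by omega⟩
    rw [this, if_neg h, add_zero]

theorem length_pf_le (q : ℕ → B) (U : Finset ℕ) (k m : ℕ) (hkm : k ≤ m) :
    cs.length (pf cs q U m) + (U.filter (· < k)).card ≤
      cs.length (pf cs q U k) + (U.filter (· < m)).card := by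
  induction m, hkm using Nat.le_induction with
  | base => exact le_rfl
  | succ m hm ih =>
    rw [filter_succ]
    by_cases h : m ∈ U
    · rw [pf, if_pos h, if_pos h]
      have := cs.length_mul_le (pf cs q U m) (cs.simple (q m))
      rw [cs.length_simple] at this
      omega
    · rw [pf, if_neg h, if_neg h]
      omega

theorem length_pf (n : ℕ) (q : ℕ → B) (ω : W) (U : Finset ℕ) (hU : IsFac cs n q ω U) (k : ℕ)
    (hk : k ≤ n) : cs.length (pf cs q U k) = (U.filter (· < k)).card := by
  have h1 := length_pf_le cs q U 0 k (Nat.zero_le _)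
  have h2 := length_pf_le cs q U k n hk
  have h3 : U.filter (· < n) = U := Finset.filter_true_of_mem hU.sub
  have h4 : (U.filter (· < 0)).card = 0 := by simp
  rw [h4, pf, cs.length_one] at h1
  rw [h3, hU.prod, hU.card] at h2
  omega

theorem pf_asc (n : ℕ) (q : ℕ → B) (ω : W) (U : Finset ℕ) (hU : IsFac cs n q ω U) (k : ℕ)
    (hk : k ∈ U) : cs.length (pf cs q U k) < cs.length (pf cs q U k * cs.simple (q k)) := by
  have hn := hU.sub k hk
  have h1 := length_pf cs n q ω U hU k hn.le
  have h2 := length_pf cs n q ω U hU (k + 1) hn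
  rw [filter_succ, if_pos hk, pf, if_pos hk] at h2
  omega

theorem not_nonpos_of_nonneg (hB : BaseF cs) {x : B → ℝ} (hx : IsRt cs x) (h0 : 0 ≤ x)
    (h1 : x ≤ 0) : False := hB.rt_ne x hx (le_antisymm h1 h0)

theorem roots4 (hB : BaseF cs) (n : ℕ) (q : ℕ → B) (ω : W) (U : Finset ℕ)
    (hU : IsFac cs n q ω U) : ∀ k, k ≤ n → ∀ β, IsRt cs β → 0 ≤ β →
    (geo cs (pf cs q U k)⁻¹ β ≤ 0 ↔ ∃ j ∈ U, j < k ∧ rt cs q U j = β) := by
  intro k
  induction k with
  | zero =>
    intro _ β hβ h0
    simp only [pf, inv_one, map_one, Module.End.one_apply, not_lt_zero, false_and, and_false,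
      exists_false, iff_false]
    intro h1
    exact not_nonpos_of_nonneg cs hB hβ h0 h1
  | succ k ih =>
    intro hk β hβ h0
    have ih' := ih (by omega) β hβ h0
    by_cases h : k ∈ U
    · have hrk : 0 ≤ rt cs q U k := geo_nonneg cs _ _ (pf_asc cs n q ω U hU k h)
      have e1 : geo cs (pf cs q U (k + 1))⁻¹ β = geo cs (cs.simple (q k))
          (geo cs (pf cs q U k)⁻¹ β) := by
        rw [pf, if_pos h, mul_inv_rev, cs.inv_simple, map_mul, Module.End.mul_apply]
      have hx : IsRt cs (geo cs (pf cs q U k)⁻¹ β) := hB.rt_geo _ _ hβ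
      rw [e1]
      constructor
      · intro h1
        rcases hB.rt_sign _ hx with h2 | h2
        · by_cases h3 : geo cs (pf cs q U k)⁻¹ β = ee (q k)
          · refine ⟨k, h, Nat.lt_succ_self _, ?_⟩
            rw [rt, ← h3, geo_apply_inv]
          · exact (not_nonpos_of_nonneg cs hB (hB.rt_geo _ _ hx)
              (hB.rt_simple _ _ hx h2 h3) h1).elim
        · obtain ⟨j, hj, hjk, hjr⟩ := ih'.1 h2
          exact ⟨j, hj, by omega, hjr⟩
      · rintro ⟨j, hj, hjk, hjr⟩
        rcases Nat.lt_succ_iff_lt_or_eq.1 hjk with h3 | h3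
        · have h2 := ih'.2 ⟨j, hj, h3, hjr⟩
          have hy : IsRt cs (- geo cs (pf cs q U k)⁻¹ β) := hB.rt_neg _ hx
          by_cases h4 : - geo cs (pf cs q U k)⁻¹ β = ee (q k)
          · have h5 : β = - rt cs q U k := by
              rw [rt, ← h4, map_neg, geo_apply_inv, neg_neg]
            exfalso
            apply not_nonpos_of_nonneg cs hB hβ h0
            rw [h5]
            exact neg_nonpos.2 hrk
          · have h5 := hB.rt_simple _ _ hy (neg_nonneg.2 h2) h4
            rw [map_neg] at h5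
            exact neg_nonneg.1 h5
        · subst h3
          rw [← hjr, rt, geo_inv_apply, geo_simple, sg_ee_self]
          exact neg_nonpos.2 (ee_nonneg _)
    · rw [pf, if_neg h, ih']
      constructor
      · rintro ⟨j, hj, hjk, hjr⟩
        exact ⟨j, hj, by omega, hjr⟩
      · rintro ⟨j, hj, hjk, hjr⟩
        refine ⟨j, hj, ?_, hjr⟩
        rcases Nat.lt_succ_iff_lt_or_eq.1 hjk with h3 | h3
        · exact h3
        · exact absurd (h3 ▸ hj) h

theorem ee_not_nonpos (i : B) (h : (ee i : B → ℝ) ≤ 0) : False :=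
  ee_ne_zero i (le_antisymm h (ee_nonneg i))

theorem roots (hB : BaseF cs) : S_ROOTS cs := by
  intro n q ω U hU
  have h4 := roots4 cs hB n q ω U hU
  have h1a : ∀ k ∈ U, 0 ≤ rt cs q U k := fun k hk =>
    geo_nonneg cs _ _ (pf_asc cs n q ω U hU k hk)
  have h6 : ∀ j ∈ U, ∀ k, j < k → k < n → rt cs q U k ≠ rt cs q U j := by
    intro j hj k hjk hkn heq
    have := (h4 k hkn.le _ (isRt_rt cs q U j) (h1a j hj)).2 ⟨j, hj, hjk, rfl⟩
    rw [← heq, rt, geo_inv_apply] at this
    exact ee_not_nonpos _ this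
  refine ⟨?_, ?_, ?_, h4, ?_, h6⟩
  · intro k hk
    refine ⟨h1a k hk, ?_⟩
    have := (h4 n le_rfl _ (isRt_rt cs q U k) (h1a k hk)).2 ⟨k, hk, hU.sub k hk, rfl⟩
    rwa [hU.prod] at this
  · intro β hβ h0 h1
    rw [← hU.prod] at h1
    obtain ⟨j, hj, _, hjr⟩ := (h4 n le_rfl β hβ h0).1 h1
    exact ⟨j, hj, hjr⟩
  · intro k hk l hl heq
    rcases lt_trichotomy k l with h | h | h
    · exact absurd heq.symm (h6 k hk l h (hU.sub l hl))
    · exact h
    · exact absurd heq (h6 l hl k h (hU.sub k hk))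
  · intro k hk hkU hle
    have h5 : geo cs (pf cs q U k)⁻¹ (- rt cs q U k) ≤ 0 := by
      rw [map_neg, rt, geo_inv_apply]
      exact neg_nonpos.2 (ee_nonneg _)
    exact (h4 k hk.le _ (hB.rt_neg _ (isRt_rt cs q U k)) (neg_nonneg.2 hle)).1 h5

end Pool.Agent.W509.SC
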