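import Pool.Agent.W236.SC.Defs2

set_option autoImplicit false

namespace Pool.Agent.W509.SC.Aw

open Pool.Agent.Helper741 Pool.Agent.W236.SC

variable {B : Type*} [Fintype B] [DecidableEq B] {M : CoxeterMatrix B}
variable {W : Type*} [Group W] (cs : CoxeterSystem M W)

theorem aw_start (q : ℕ → B) (U : Finset ℕ) (a : ℕ) (x : B → ℝ) : aw M q U a x a = x := by
  cases a with
  | zero => rfl
  | succ a => rw [aw, if_pos (Nat.lt_succ_self _)]

theorem aw_used (q : ℕ → B) (U : Finset ℕ) (a : ℕ) (x : B → ℝ) (k : ℕ) (h : a ≤ k)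
    (hk : k ∈ U) : aw M q U a x (k + 1) = sg M (q k) (aw M q U a x k) := by
  rw [aw, if_neg (not_lt.2 h), if_pos hk]

theorem aw_skip (q : ℕ → B) (U : Finset ℕ) (a : ℕ) (x : B → ℝ) (k : ℕ) (h : a ≤ k)
    (hk : k ∉ U) : aw M q U a x (k + 1) =
      aw M q U a x k - (aw M q U a x k (q k)) • ee (q k) := by
  rw [aw, if_neg (not_lt.2 h), if_neg hk]

theorem pf_used (q : ℕ → B) (U : Finset ℕ) (k : ℕ) (hk : k ∈ U) :
    pf cs q U (k + 1) = pf cs q U k * cs.simple (q k) := by rw [pf, if_pos hk]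

theorem pf_skip (q : ℕ → B) (U : Finset ℕ) (k : ℕ) (hk : k ∉ U) :
    pf cs q U (k + 1) = pf cs q U k := by rw [pf, if_neg hk]

theorem geo_pf_used (q : ℕ → B) (U : Finset ℕ) (k : ℕ) (hk : k ∈ U) (x : B → ℝ) :
    geo cs (pf cs q U (k + 1))⁻¹ x = sg M (q k) (geo cs (pf cs q U k)⁻¹ x) := by
  rw [pf_used cs q U k hk, mul_inv_rev, cs.inv_simple, map_mul, Module.End.mul_apply, geo_simple]

theorem geo_pf_start (q : ℕ → B) (U : Finset ℕ) (p : ℕ) (hp : p ∈ U) :
    geo cs (pf cs q U (p + 1))⁻¹ (- rt cs q U p) = ee (q p) := by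
  rw [geo_pf_used cs q U p hp, rt, map_neg, geo_inv_apply, map_neg, sg_ee_self, neg_neg]

theorem geo_inv_rt (q : ℕ → B) (U : Finset ℕ) (p : ℕ) :
    geo cs (pf cs q U p)⁻¹ (rt cs q U p) = ee (q p) := by
  rw [rt, geo_inv_apply]

theorem isRt_rt (q : ℕ → B) (U : Finset ℕ) (k : ℕ) : IsRt cs (rt cs q U k) := ⟨_, _, rfl⟩

theorem rt_ne_neg (hB : BaseF cs) {x y : B → ℝ} (hx : IsRt cs x) (h0 : 0 ≤ x) (h1 : 0 ≤ y)
    (h : x = - y) : False :=
  hB.rt_ne x hx (le_antisymm (by rw [h]; exact neg_nonpos.2 h1) h0)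

theorem ioo_succ (a k : ℕ) (h : a < k) : Finset.Ioo a (k + 1) = insert k (Finset.Ioo a k) := by
  ext x
  simp only [Finset.mem_Ioo, Finset.mem_insert]
  omega

theorem aw1 (hB : BaseF cs) (hWL : S_WL cs) (hR : S_ROOTS cs) : S_AW1 cs := by
  intro n q ω U p hM hU hp
  have hpn : p < n := hU.sub p hp
  obtain ⟨r1, _⟩ := hR n q ω U hU
  obtain ⟨c, c0, c1, c2, c3⟩ := hWL n q (U : Set ℕ) (pf cs q U) p n (- rt cs q U p) hM hpn le_rfl
    (fun k _ _ hk => pf_used cs q U k hk) (fun k _ _ hk => pf_skip cs q U k hk)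
    (geo_pf_start cs q U p hp) (by
      intro k _ _ hk heq
      have h1 : - rt cs q U p = rt cs q U k := by
        have := congrArg (geo cs (pf cs q U k)) heq
        rwa [geo_apply_inv] at this
      exact rt_ne_neg cs hB (isRt_rt cs q U k) (r1 k hk).1 (r1 p hp).1 h1.symm)
  have c4 : ∀ k, p < k → k < n → k ∈ U → c k = 0 := by
    intro k h1 h2 h3
    by_contra hne
    obtain ⟨i, _, _, hi, heq⟩ := c3 k h1 h2 h3 hne
    exact rt_ne_neg cs hB (isRt_rt cs q U k) (r1 k h3).1 (r1 i hi).1 heq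
  have key : ∀ k, p < k → k ≤ n → aw M q U (p + 1) (ee (q p)) k = geo cs (pf cs q U k)⁻¹
      (- rt cs q U p - ∑ j ∈ Finset.Ioo p k, c j • geo cs (pf cs q U j) (ee (q j))) := by
    intro k hk
    induction k, hk using Nat.le_induction with
    | base =>
      intro _
      have : Finset.Ioo p (p + 1) = ∅ := by ext x; simp
      rw [Nat.succ_eq_add_one, this, Finset.sum_empty, sub_zero, geo_pf_start cs q U p hp,
        aw_start]
    | succ k hk ih =>
      intro hkn
      have ih' := ih (by omega)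
      have hk' : p + 1 ≤ k := hk
      rw [ioo_succ p k hk, Finset.sum_insert (by simp)]
      by_cases h : k ∈ U
      · rw [aw_used q U (p + 1) _ k hk' h, ih', geo_pf_used cs q U k h, c4 k hk (by omega) h,
          zero_smul, zero_add]
      · rw [aw_skip q U (p + 1) _ k hk' h, pf_skip cs q U k h, ih',
          ← c2 k hk (by omega) h, add_comm, ← sub_sub, map_sub (geo cs (pf cs q U k)⁻¹) _ (c k • _),
          map_smul, geo_inv_apply]
  intro k h1 h2
  rw [key k h1 h2]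
  exact (c1 k h1 h2).1

theorem seg (hB : BaseF cs) (hWL : S_WL cs) (hR : S_ROOTS cs) : S_SEG cs := by
  intro n q ω U a b γ ζ hM hU hab hbn hγ hb hne hζ hζ2
  obtain ⟨r1, _⟩ := hR n q ω U hU
  obtain ⟨c, c0, c1, c2, c3⟩ := hWL n q (U : Set ℕ) (pf cs q U) a b γ hM hab hbn.le
    (fun k _ _ hk => pf_used cs q U k hk) (fun k _ _ hk => pf_skip cs q U k hk)
    hγ (by
      intro k h1 h2 hk heq
      have h3 : γ = rt cs q U k := by
        have := congrArg (geo cs (pf cs q U k)) heq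
        rwa [geo_apply_inv] at this
      exact hne k h1 h2 hk h3.symm)
  have c4 : ∀ k, a < k → k < b → k ∈ U → c k = 0 := by
    intro k h1 h2 h3
    by_contra hne
    obtain ⟨i, _, _, hi, heq⟩ := c3 k h1 h2 h3 hne
    exact rt_ne_neg cs hB (isRt_rt cs q U k) (r1 k h3).1 (r1 i hi).1 heq
  obtain ⟨w0, w1⟩ := c1 b hab le_rfl
  set w := geo cs (pf cs q U b)⁻¹
    (γ - ∑ j ∈ Finset.Ioo a b, c j • geo cs (pf cs q U j) (ee (q j))) with hw
  have e1 : geo cs (pf cs q U b)⁻¹ γ = ee (q b) := by rw [← hb, geo_inv_rt]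
  rw [e1] at w1
  have e2 : w = w (q b) • ee (q b) := by
    funext i
    by_cases hi : i = q b
    · subst hi
      simp [ee]
    · have h1 := w0 i
      have h2 := w1 i
      simp only [ee, Pi.single_eq_of_ne hi, Pi.zero_apply] at h1 h2
      simp only [ee, Pi.smul_apply, Pi.single_eq_of_ne hi, smul_zero]
      exact le_antisymm h2 h1
  have e3 : γ - ∑ j ∈ Finset.Ioo a b, c j • geo cs (pf cs q U j) (ee (q j)) = w (q b) • γ := by
    have h1 : geo cs (pf cs q U b) w = w (q b) • γ := by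
      have h0 : geo cs (pf cs q U b) w = geo cs (pf cs q U b) (w (q b) • ee (q b)) :=
        congrArg _ e2
      rw [h0, map_smul, ← e1, geo_apply_inv]
    rw [← h1, hw, geo_apply_inv]
  have e4 : ∑ j ∈ Finset.Ioo a b, c j * ζ (rt cs q U j) = 0 := by
    have h1 := congrArg ζ e3
    rw [map_sub, map_smul, map_sum, hζ, smul_zero, zero_sub, neg_eq_zero] at h1
    simpa only [map_smul, smul_eq_mul, rt] using h1
  have e5 : ∀ j ∈ Finset.Ioo a b, c j * ζ (rt cs q U j) = 0 := by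
    refine (Finset.sum_eq_zero_iff_of_nonneg ?_).1 e4
    intro j hj
    rw [Finset.mem_Ioo] at hj
    by_cases h : j ∈ U
    · rw [c4 j hj.1 hj.2 h, zero_mul]
    · exact mul_nonneg (c0 j) (hζ2 j hj.1 hj.2 h).le
  have e6 : ∀ j ∈ Finset.Ioo a b, c j = 0 := by
    intro j hj
    have h1 := e5 j hj
    rw [Finset.mem_Ioo] at hj
    by_cases h : j ∈ U
    · exact c4 j hj.1 hj.2 h
    · rcases mul_eq_zero.1 h1 with h2 | h2
      · exact h2
      · exact absurd h2 (hζ2 j hj.1 hj.2 h).ne'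
  intro k h1 h2 h3
  have h4 := c2 k h1 h2 h3
  have h5 : ∑ j ∈ Finset.Ioo a k, c j • geo cs (pf cs q U j) (ee (q j)) = 0 := by
    apply Finset.sum_eq_zero
    intro j hj
    rw [Finset.mem_Ioo] at hj
    rw [e6 j (Finset.mem_Ioo.2 ⟨hj.1, by omega⟩), zero_smul]
  rw [h5, sub_zero, e6 k (Finset.mem_Ioo.2 ⟨h1, h2⟩)] at h4
  exact h4.symm

theorem db (hB : BaseF cs) (hR : S_ROOTS cs) (hSeg : S_SEG cs) : S_DB cs := by
  classical
  intro n q ω v s U hM hlen hK hex
  obtain ⟨r1, _, _, _, r5, _⟩ := hR n q ω U hK.fac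
  obtain ⟨g', hg'n, hg'U, hg'r⟩ := hex
  set β := geo cs v (ee s) with hβ
  have hβ0 : 0 ≤ β := geo_nonneg cs v s hlen
  have hβrt : IsRt cs β := ⟨v, s, rfl⟩
  obtain ⟨p, hpU, hpg, hpr⟩ := r5 g' hg'n hg'U (by rw [hg'r]; exact neg_nonpos.2 hβ0)
  rw [hg'r, neg_neg] at hpr
  have hex : ∃ k, p < k ∧ k ∉ U ∧ rt cs q U k = - β := ⟨g', hpg, hg'U, hg'r⟩
  obtain ⟨hb1, hb2, hb3⟩ := Nat.find_spec hex
  have hbmin := fun k => Nat.find_min (H := hex) (m := k)
  have hbg : Nat.find hex ≤ g' := Nat.find_min' hex ⟨hpg, hg'U, hg'r⟩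
  set b := Nat.find hex with hb
  have hv' : geo cs (v * cs.simple s)⁻¹ (- β) = ee s := by
    rw [mul_inv_rev, cs.inv_simple, map_mul, Module.End.mul_apply, map_neg, hβ, geo_inv_apply,
      map_neg, geo_simple, sg_ee_self, neg_neg]
  let ζ : (B → ℝ) →ₗ[ℝ] ℝ :=
    ∑ i ∈ Finset.univ.erase s, (LinearMap.proj i) ∘ₗ (geo cs (v * cs.simple s)⁻¹)
  have hζ : ∀ x, ζ x = ∑ i ∈ Finset.univ.erase s, (geo cs (v * cs.simple s)⁻¹ x) i := by
    intro x
    simp [ζ]
  have hst : geo cs (pf cs q U (p + 1))⁻¹ (- β) = ee (q p) := by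
    rw [← hpr]; exact geo_pf_start cs q U p hpU
  have h1 := hSeg n q ω U p b (- β) ζ hM hK.fac hb1 (by omega) hst hb3
    (by
      intro k _ _ hk heq
      exact rt_ne_neg cs hB (isRt_rt cs q U k) (r1 k hk).1 hβ0 heq)
    (by
      rw [hζ, hv']
      apply Finset.sum_eq_zero
      intro i hi
      simp [ee, (Finset.mem_erase.1 hi).1])
    (by
      intro k hk1 hk2 hk3
      have hr : rt cs q U k ≠ - β := fun heq => hbmin k hk2 ⟨hk1, hk3, heq⟩
      have hpos : 0 ≤ geo cs (v * cs.simple s)⁻¹ (rt cs q U k) := hK.pos k (by omega) hk3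
      have hrt : IsRt cs (geo cs (v * cs.simple s)⁻¹ (rt cs q U k)) :=
        hB.rt_geo _ _ (isRt_rt cs q U k)
      have hne : ∃ i, i ≠ s ∧ geo cs (v * cs.simple s)⁻¹ (rt cs q U k) i ≠ 0 := by
        by_contra hcon
        push Not at hcon
        have h2 := hB.rt_supp _ s hrt hpos hcon
        rw [← hv'] at h2
        exact hr (geo_injective_apply cs _ h2)
      obtain ⟨i, hi, hi2⟩ := hne
      rw [hζ]
      apply Finset.sum_pos'
      · intro j _
        exact hpos j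
      · exact ⟨i, Finset.mem_erase.2 ⟨hi, Finset.mem_univ i⟩, lt_of_le_of_ne (hpos i) hi2.symm⟩)
  have key : ∀ k, p < k → k ≤ b → aw M q U (p + 1) (ee (q p)) k =
      geo cs (pf cs q U k)⁻¹ (- β) := by
    intro k hk
    induction k, hk using Nat.le_induction with
    | base =>
      intro _
      rw [Nat.succ_eq_add_one, hst, aw_start]
    | succ k hk ih =>
      intro hkb
      have ih' := ih (by omega)
      have hk' : p + 1 ≤ k := hk
      by_cases h : k ∈ U
      · rw [aw_used q U (p + 1) _ k hk' h, ih', geo_pf_used cs q U k h]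
      · rw [aw_skip q U (p + 1) _ k hk' h, pf_skip cs q U k h, ih', h1 k hk (by omega) h,
          zero_smul, sub_zero]
  have h2 : aw M q U (p + 1) (ee (q p)) b = ee (q b) := by
    rw [key b hb1 le_rfl, ← hb3, geo_inv_rt]
  have h3 : aw M q U (p + 1) (ee (q p)) (b + 1) = 0 := by
    rw [aw_skip q U (p + 1) _ b hb1 hb2, h2]
    simp [ee]
  have h4 : ∀ k, b + 1 ≤ k → aw M q U (p + 1) (ee (q p)) k = 0 := by
    intro k hk
    induction k, hk using Nat.le_induction with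
    | base => exact h3
    | succ k hk ih =>
      by_cases h : k ∈ U
      · rw [aw_used q U (p + 1) _ k (by omega) h, ih, map_zero]
      · rw [aw_skip q U (p + 1) _ k (by omega) h, ih]
        simp
  exact ⟨p, hpU, hpr, h4 n (by omega)⟩

end Pool.Agent.W509.SC.Aw
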