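import Pool.Agent.W323.SC.Stm

/-! Project SC (owner helper323), part MD: dependent pairs. -/

set_option autoImplicit false
open Finset
open scoped Classical

namespace Pool.Agent.W509.SC

open Pool.Agent.W323.SC

variable {n : ℕ}

theorem spn (M : Matroid (Fin n)) (hE : M.E = Set.univ) (x : Fin n) (T : Set (Fin n))
    (hx : x ∈ M.closure T) : M.Spanning (insert x T) ↔ M.Spanning T := by
  rw [M.spanning_iff_closure_eq (by rw [hE]; exact Set.subset_univ _),
    M.spanning_iff_closure_eq (by rw [hE]; exact Set.subset_univ _),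
    Matroid.closure_insert_eq_of_mem_closure hx]

theorem w_nonneg (z : Fin n → ℝ) (hz : ∀ x, 0 < z x) (X : Finset (Fin n)) : 0 ≤ w z X := by
  unfold w
  exact Finset.prod_nonneg fun x _ => (hz x).le

theorem BB_nonneg (M : Matroid (Fin n)) (z : Fin n → ℝ) (hz : ∀ x, 0 < z x) (e f : Fin n) :
    0 ≤ BB M z e f := Finset.sum_nonneg fun X _ => w_nonneg z hz X

theorem DD_le (M : Matroid (Fin n)) (hE : M.E = Set.univ) (z : Fin n → ℝ) (hz : ∀ x, 0 < z x)
    (e f : Fin n) : DD M z e f ≤ BB M z e f := by
  refine Finset.sum_le_sum_of_subset_of_nonneg ?_ fun X _ _ => w_nonneg z hz X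
  intro X hX
  rw [Finset.mem_filter] at hX ⊢
  refine ⟨hX.1, ?_⟩
  rw [Finset.coe_insert]
  exact hX.2.superset (Set.subset_insert _ _) (by rw [hE]; exact Set.subset_univ _)

theorem AA_eq (M : Matroid (Fin n)) (hE : M.E = Set.univ) (z : Fin n → ℝ)
    (e f : Fin n) (h : f ∈ M.closure {e}) : AA M z e f = BB M z e f := by
  unfold AA BB
  congr 1
  apply Finset.filter_congr
  intro X _
  rw [Finset.coe_insert, Finset.coe_insert, Finset.coe_insert, Set.insert_comm]
  refine spn M hE f _ ?_
  refine M.closure_subset_closure ?_ h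
  intro y hy
  rw [Set.mem_singleton_iff] at hy
  rw [hy]
  exact Set.mem_insert _ _

theorem AA_comm (M : Matroid (Fin n)) (z : Fin n → ℝ) (e f : Fin n) :
    AA M z e f = AA M z f e := by
  unfold AA
  rw [Finset.pair_comm]
  congr 1
  apply Finset.filter_congr
  intro X _
  rw [Finset.insert_comm]

theorem DD_comm (M : Matroid (Fin n)) (z : Fin n → ℝ) (e f : Fin n) :
    DD M z e f = DD M z f e := by
  unfold DD
  rw [Finset.pair_comm]

theorem md : S_MD := by
  intro n M hE e f hef hd z hz
  have hcase : f ∈ M.closure {e} ∨ e ∈ M.closure {f} := by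
    by_cases he : M.Indep {e}
    · left
      rw [he.mem_closure_iff]
      left
      rw [Set.pair_comm]
      exact ⟨hd, by rw [hE]; exact Set.subset_univ _⟩
    · right
      have h1 : e ∈ M.closure ∅ := by
        rw [M.empty_indep.mem_closure_iff]
        left
        refine ⟨?_, by rw [hE]; exact Set.subset_univ _⟩
        simpa using he
      exact M.closure_subset_closure (Set.empty_subset _) h1
  rcases hcase with h | h
  · rw [AA_eq M hE z e f h, DD_comm]
    exact mul_le_mul_of_nonneg_left (DD_le M hE z hz f e) (BB_nonneg M z hz e f)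
  · rw [AA_comm, AA_eq M hE z f e h, mul_comm (BB M z e f)]
    exact mul_le_mul_of_nonneg_left (DD_le M hE z hz e f) (BB_nonneg M z hz f e)

end Pool.Agent.W509.SC
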